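import Pool.Agent.Helper50.GX.Defs

set_option autoImplicit false

namespace Pool.Agent.Helper50.GX

open Polynomial

theorem fld_roots {K : Type} [Field K] [Finite K] (P : K[X]) (hP : P ≠ 0) (p : K → Prop)
    (h : ∀ x, p x → P.eval x = 0) : Nat.card {x : K // p x} ≤ P.natDegree := by
  classical
  have := Fintype.ofFinite K
  rw [Nat.card_eq_fintype_card, Fintype.card_subtype]
  refine le_trans (Finset.card_le_card (t := P.roots.toFinset) ?_)
    (le_trans (Multiset.toFinset_card_le _) (card_roots' P))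
  intro x hx
  rw [Finset.mem_filter] at hx
  rw [Multiset.mem_toFinset, mem_roots hP]
  exact h x hx.2

/-- the fibre count -/
theorem fld_XS {K : Type} [Field K] [Finite K] (σ : K ≃+* K) (hD : Dat σ) (q : ℕ) (hq : 2 ≤ q)
    (hK : Nat.card K = q ^ 3) (hF : Nat.card {x : K // σ x = x} ≤ q) :
    q + 1 ≤ Nat.card (XS σ) := by
  classical
  have := Fintype.ofFinite K
  have hσ3 := hD.ord
  have h2 := hD.two
  -- the trace
  let tr : K →+ K :=
    { toFun := fun x => x + σ x + σ (σ x)
      map_zero' := by simp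
      map_add' := fun x y => by simp only [map_add]; ring }
  have htr : ∀ x, tr x = x + σ x + σ (σ x) := fun _ => rfl
  have hcard : Nat.card K = Nat.card tr.ker * Nat.card tr.range := by
    have := tr.ker.card_mul_index
    rw [← this, AddSubgroup.index_ker]
  have hrange : Nat.card tr.range ≤ q := by
    refine le_trans ?_ hF
    refine Nat.card_le_card_of_injective (fun y => (⟨y.1, ?_⟩ : {x : K // σ x = x})) ?_
    · obtain ⟨x, hx⟩ := y.2
      rw [← hx, htr, map_add, map_add, hσ3]
      ring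
    · intro y y' h
      simp only [Subtype.mk.injEq] at h
      exact Subtype.ext h
  have hker : q ^ 2 ≤ Nat.card tr.ker := by
    have h1 : q ^ 3 ≤ Nat.card tr.ker * q := by
      rw [← hK, hcard]
      exact Nat.mul_le_mul_left _ hrange
    have h3 : q ^ 2 * q ≤ Nat.card tr.ker * q := by rw [← pow_succ]; exact h1
    exact Nat.le_of_mul_le_mul_right h3 (by omega)
  let T : Finset K := Finset.univ.filter (fun x => x ≠ 0 ∧ tr x = 0)
  have hT : q ^ 2 ≤ T.card + 1 := by
    refine le_trans hker ?_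
    have e1 : Nat.card tr.ker = (Finset.univ.filter (fun x => tr x = 0)).card := by
      rw [Nat.card_eq_fintype_card]
      rw [← Fintype.card_subtype]
      exact Fintype.card_congr (Equiv.refl _)
    rw [e1]
    have e2 : Finset.univ.filter (fun x => tr x = 0) ⊆ insert 0 T := by
      intro x hx
      rw [Finset.mem_filter] at hx
      rw [Finset.mem_insert]
      by_cases h0 : x = 0
      · exact Or.inl h0
      · exact Or.inr (Finset.mem_filter.mpr ⟨Finset.mem_univ _, h0, hx.2⟩)
    exact le_trans (Finset.card_le_card e2) (Finset.card_insert_le _ _)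
  let φ : K → K := fun A => σ (σ A) / σ A
  have hne : ∀ x, x ≠ 0 → σ x ≠ 0 := fun x hx h => hx (by
    have := congrArg σ.symm h
    simpa using this)
  have himg : T.image φ ⊆ Finset.univ.filter (fun β => β ∈ XS σ) := by
    intro β hβ
    rw [Finset.mem_image] at hβ
    obtain ⟨A, hA, rfl⟩ := hβ
    rw [Finset.mem_filter] at hA
    obtain ⟨_, hA0, hA1⟩ := hA
    rw [htr] at hA1
    rw [Finset.mem_filter]
    refine ⟨Finset.mem_univ _, ?_⟩
    show φ A * σ (φ A) = 1 + φ A
    have n1 := hne A hA0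
    have n2 := hne _ n1
    show σ (σ A) / σ A * σ (σ (σ A) / σ A) = 1 + σ (σ A) / σ A
    rw [map_div₀, hσ3]
    rw [div_mul_div_comm, mul_comm (σ (σ A)) A, mul_div_mul_right _ _ n2, div_eq_iff n1,
      add_mul, one_mul, div_mul_cancel₀ _ n1]
    linear_combination hA1 - (σ A + σ (σ A)) * h2
  have hfib : ∀ b ∈ T.image φ, (T.filter (fun a => φ a = b)).card ≤ q - 1 := by
    intro b hb
    rw [Finset.mem_image] at hb
    obtain ⟨A, hA, rfl⟩ := hb
    rw [Finset.mem_filter] at hA
    obtain ⟨_, hA0, hA1⟩ := hA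
    have hF' : (Finset.univ.filter (fun x : K => x ≠ 0 ∧ σ x = x)).card + 1 ≤ q := by
      refine le_trans ?_ hF
      rw [Nat.card_eq_fintype_card, Fintype.card_subtype]
      rw [← Finset.card_insert_of_notMem (a := (0 : K))
        (s := Finset.univ.filter (fun x : K => x ≠ 0 ∧ σ x = x)) (by simp)]
      refine Finset.card_le_card ?_
      intro x hx
      rw [Finset.mem_insert, Finset.mem_filter] at hx
      rw [Finset.mem_filter]
      rcases hx with rfl | hx
      · exact ⟨Finset.mem_univ _, map_zero _⟩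
      · exact ⟨Finset.mem_univ _, hx.2.2⟩
    refine le_trans ?_ (Nat.le_sub_one_of_lt (Nat.lt_of_succ_le hF'))
    refine Finset.card_le_card_of_injOn (fun B => B / A) ?_ ?_
    · intro B hB
      have hB' := Finset.mem_filter.mp (Finset.mem_coe.mp hB)
      obtain ⟨hB1, hB2⟩ := hB'
      have hB0 := (Finset.mem_filter.mp hB1).2.1
      have n1 := hne A hA0
      have n2 := hne B hB0
      have hh : σ (σ B) / σ B = σ (σ A) / σ A := hB2
      refine Finset.mem_coe.mpr (Finset.mem_filter.mpr ⟨Finset.mem_univ _, div_ne_zero hB0 hA0, ?_⟩)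
      apply σ.injective
      rw [map_div₀, map_div₀]
      rw [div_eq_div_iff n2 n1] at hh
      rw [div_eq_div_iff (hne _ n1) n1]
      linear_combination hh
    · intro B hB B' hB' h
      have h' : B / A = B' / A := h
      rw [div_eq_div_iff hA0 hA0] at h'
      exact mul_right_cancel₀ hA0 h'
  have hmul : T.card ≤ (q - 1) * (T.image φ).card :=
    Finset.card_le_mul_card_image T (q - 1) hfib
  have hX : (T.image φ).card ≤ Nat.card (XS σ) := by
    refine le_trans (Finset.card_le_card himg) ?_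
    rw [← Fintype.card_subtype, ← Nat.card_eq_fintype_card]
  have h5 : q ^ 2 ≤ (q - 1) * Nat.card (XS σ) + 1 :=
    le_trans hT (Nat.add_le_add_right (le_trans hmul (Nat.mul_le_mul_left _ hX)) 1)
  obtain ⟨t, rfl⟩ : ∃ t, q = t + 2 := ⟨q - 2, by omega⟩
  have h6 : t + 2 - 1 = t + 1 := by omega
  rw [h6] at h5
  by_contra hcon
  have h7 : Nat.card (XS σ) ≤ t + 2 := by omega
  have h8 : (t + 1) * Nat.card (XS σ) ≤ (t + 1) * (t + 2) := Nat.mul_le_mul_left _ h7
  nlinarith

theorem st_FLD : ST_FLD := by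
  intro r hr
  have : Fact (Nat.Prime 2) := ⟨Nat.prime_two⟩
  have hq2 : 2 ≤ 2 ^ r := by
    calc 2 = 2 ^ 1 := (pow_one 2).symm
      _ ≤ 2 ^ r := Nat.pow_le_pow_right (by norm_num) hr
  have hcard : Nat.card (GaloisField 2 (3 * r)) = (2 ^ r) ^ 3 := by
    rw [GaloisField.card 2 (3 * r) (by omega), ← pow_mul, mul_comm]
  let σ : GaloisField 2 (3 * r) ≃+* GaloisField 2 (3 * r) :=
    iterateFrobeniusEquiv (GaloisField 2 (3 * r)) 2 r
  have hσ : ∀ x, σ x = x ^ (2 ^ r) := fun x => iterateFrobeniusEquiv_def _ _ _ _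
  have hD : Dat σ := by
    refine ⟨?_, ?_⟩
    · exact CharTwo.two_eq_zero
    · intro x
      rw [hσ, hσ, hσ, ← pow_mul, ← pow_mul]
      have := Fintype.ofFinite (GaloisField 2 (3 * r))
      have h1 := FiniteField.pow_card x
      rw [← Nat.card_eq_fintype_card, hcard] at h1
      rw [show (2 ^ r) * ((2 ^ r) * (2 ^ r)) = (2 ^ r) ^ 3 by ring]
      exact h1
  refine ⟨GaloisField 2 (3 * r), inferInstance, inferInstance, σ, hD, hcard, ?_, ?_, ?_⟩
  · refine fld_XS σ hD (2 ^ r) hq2 hcard ?_
    have hP : ((X : (GaloisField 2 (3 * r))[X]) ^ (2 ^ r) - X).natDegree = 2 ^ r := by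
      rw [natDegree_sub_eq_left_of_natDegree_lt]
      · exact natDegree_X_pow _
      · rw [natDegree_X, natDegree_X_pow]; omega
    refine le_trans (fld_roots (X ^ (2 ^ r) - X) ?_ _ ?_) (le_of_eq hP)
    · intro h0
      rw [h0, natDegree_zero] at hP
      omega
    · intro x hx
      rw [hσ] at hx
      simp [hx]
  · have hP : ((X : (GaloisField 2 (3 * r))[X]) ^ ((2 ^ r) ^ 2 + 2 ^ r + 1) - 1).natDegree =
        (2 ^ r) ^ 2 + 2 ^ r + 1 := by
      have := natDegree_X_pow_sub_C (R := GaloisField 2 (3 * r)) (n := (2 ^ r) ^ 2 + 2 ^ r + 1) (r := 1)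
      simpa using this
    refine le_trans (fld_roots (X ^ ((2 ^ r) ^ 2 + 2 ^ r + 1) - 1) ?_ _ ?_)
      (le_trans (le_of_eq hP) ?_)
    · intro h0
      rw [h0, natDegree_zero] at hP
      omega
    · intro x hx
      rw [hσ, hσ] at hx
      have : x ^ ((2 ^ r) ^ 2 + 2 ^ r + 1) = 1 := by
        rw [← hx]; ring
      simp [this]
    · nlinarith
  · have hlt : 2 ^ r < (2 ^ r) ^ 2 := by nlinarith
    have hP : ((X : (GaloisField 2 (3 * r))[X]) ^ ((2 ^ r) ^ 2) + (X ^ (2 ^ r) + X)).natDegree =
        (2 ^ r) ^ 2 := by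
      rw [natDegree_add_eq_left_of_natDegree_lt]
      · exact natDegree_X_pow _
      · rw [natDegree_X_pow]
        refine lt_of_le_of_lt (natDegree_add_le _ _) ?_
        rw [natDegree_X, natDegree_X_pow]
        exact max_lt hlt (by omega)
    refine le_trans (fld_roots (X ^ ((2 ^ r) ^ 2) + (X ^ (2 ^ r) + X)) ?_ _ ?_)
      (le_of_eq hP)
    · intro h0
      rw [h0, natDegree_zero] at hP
      have : 0 < (2 ^ r) ^ 2 := by positivity
      omega
    · intro x hx
      rw [hσ, hσ] at hx
      simp only [eval_add, eval_pow, eval_X]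
      rw [← hx]; ring

end Pool.Agent.Helper50.GX
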